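import Mathlib

set_option autoImplicit false
open Cardinal

universe u

namespace Pool.Agent.Idl

/-- `P ∈ 𝒟(κ)`: the partial order `P` contains no antichain of cardinality `κ`. -/
def InD (κ : Cardinal.{u}) (P : Type u) [PartialOrder P] : Prop :=
  ¬ ∃ A : Set P, IsAntichain (· ≤ ·) A ∧ #A = κ

end Pool.Agent.Idl
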