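import Pool.Agent.H0.Idl.EndHom

set_option autoImplicit false
open Set Cardinal

universe u

namespace Pool.Agent.Idl

/-- comparability in `P` -/
def Cp {P : Type u} [PartialOrder P] (x y : P) : Prop := x ≤ y ∨ y ≤ x

lemma anti_lt {P : Type u} [PartialOrder P] {μ : Cardinal.{u}}
    (hP : ∀ A : Set P, IsAntichain (· ≤ ·) A → #A < μ) {X : Type u} [LinearOrder X] {S : Set X} (f : X → P)
    (hf : ∀ η ∈ S, ∀ ξ ∈ S, η < ξ → ¬ Cp (f η) (f ξ)) : #S < μ := by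
  have hinj : InjOn f S := by
    intro η hη ξ hξ h
    by_contra hne
    rcases lt_or_gt_of_ne hne with hl | hl
    · exact hf η hη ξ hξ hl (Or.inl h.le)
    · exact hf ξ hξ η hη hl (Or.inl h.ge)
  rw [← mk_image_eq_of_injOn _ _ hinj]
  apply hP
  rintro _ ⟨η, hη, rfl⟩ _ ⟨ξ, hξ, rfl⟩ hne hle
  rcases lt_trichotomy η ξ with hl | hl | hl
  · exact hf η hη ξ hξ hl (Or.inl hle)
  · exact hne (by rw [hl])
  · exact hf ξ hξ η hη hl (Or.inr hle)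

/-- backward lemma -/
lemma backward {P : Type u} [PartialOrder P] {μ : Cardinal.{u}} (hμ : ℵ₀ ≤ μ)
    (hP : ∀ A : Set P, IsAntichain (· ≤ ·) A → #A < μ) (x : W (2 ^ μ) → P) :
    ∃ K : Set (W (2 ^ μ)), μ ≤ #K ∧ ∀ ξ ∈ K, ∃ θ < ξ, ∀ η ∈ K, η < ξ → x η ≤ x θ := by
  have hκ : ℵ₀ ≤ 2 ^ μ := hμ.trans (cantor μ).le
  by_cases hI : ∃ θ₀ : W (2 ^ μ), μ ≤ #{η | θ₀ < η ∧ x η ≤ x θ₀}
  · obtain ⟨θ₀, hθ₀⟩ := hI
    exact ⟨_, hθ₀, fun ξ hξ => ⟨θ₀, hξ.1, fun η hη _ => hη.2⟩⟩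
  push Not at hI
  have hbd : ∀ θ : W (2 ^ μ), ∃ h, ∀ η ∈ {η | θ < η ∧ x η ≤ x θ}, η < h := fun θ =>
    exists_bd hκ ((hI θ).le.trans (cantor μ).le)
  choose h hh using hbd
  obtain ⟨e, he, hhe⟩ := exists_reindex hκ h
  have hnle : ∀ θ η, θ < η → ¬ x (e η) ≤ x (e θ) := by
    intro θ η hlt hle
    exact absurd (hh (e θ) (e η) ⟨he hlt, hle⟩) (not_lt.2 (hhe θ η hlt))
  obtain ⟨ρ, b, hb, -, hbρ⟩ := endhom (Λ := W (2 ^ μ)) (ι := PUnit.{u+1}) hμ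
    (by rw [mk_punit]; exact one_le_aleph0.trans hμ) (by rw [mk_W]; exact Order.lt_succ _)
    (fun _ z _ y => Cp (x (e z)) (x (e y)))
  have hcp : ∀ η ξ : W μ, η < ξ → (Cp (x (e (b η))) (x (e (b ξ))) ↔ Cp (x (e (b η))) (x (e ρ))) := fun η ξ hlt =>
    hbρ PUnit.unit ξ η η hlt hlt
  set Q : Set (W μ) := {η | ¬ Cp (x (e (b η))) (x (e ρ))} with hQ
  have hQc : #Q < μ := by
    apply anti_lt hP (fun η => x (e (b η)))
    intro η hη ξ _ hlt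
    rw [hcp η ξ hlt]
    exact hη
  have hQ2 : μ ≤ #(Qᶜ : Set (W μ)) := by
    by_contra hcon
    push Not at hcon
    have h1 := mk_sum_compl Q
    rw [mk_W] at h1
    have h2 : #Q + #(Qᶜ : Set (W μ)) < μ := add_lt_of_lt hμ hQc hcon
    rw [h1] at h2
    exact absurd h2 (not_lt.2 (Order.le_succ μ))
  set K₀ : Set (W (2 ^ μ)) := b '' Qᶜ with hK₀
  have hK₀c : μ ≤ #K₀ := by rw [hK₀, mk_image_eq hb]; exact hQ2
  have hK₀cp : ∀ θ ∈ K₀, ∀ η ∈ K₀, θ < η → x (e θ) ≤ x (e η) := by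
    have key : ∀ θ ∈ K₀, ∀ η ∈ K₀, θ ≠ η → Cp (x (e θ)) (x (e η)) := by
      rintro _ ⟨θ, hθ, rfl⟩ _ ⟨η, hη, rfl⟩ hne
      have hne' : θ ≠ η := fun h => hne (by rw [h])
      have hθ' : Cp (x (e (b θ))) (x (e ρ)) := not_not.1 hθ
      have hη' : Cp (x (e (b η))) (x (e ρ)) := not_not.1 hη
      rcases lt_or_gt_of_ne hne' with hl | hl
      · exact (hcp θ η hl).2 hθ'
      · exact ((hcp η θ hl).2 hη').symm
    intro θ hθ η hη hlt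
    rcases key θ hθ η hη hlt.ne with h1 | h1
    · exact h1
    · exact absurd h1 (hnle θ η hlt)
  -- successors in `K₀`
  set K₁ : Set (W (2 ^ μ)) := {ξ | ξ ∈ K₀ ∧ ∃ θ ∈ K₀, θ < ξ ∧ ∀ η ∈ K₀, η < ξ → η ≤ θ} with hK₁
  set K₂ : Set (W (2 ^ μ)) := {θ | θ ∈ K₀ ∧ ∃ ξ ∈ K₀, θ < ξ} with hK₂
  have hK₂c : μ ≤ #K₂ := by
    by_contra hcon
    push Not at hcon
    have hsub : (K₀ \ K₂).Subsingleton := by
      intro θ hθ η hη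
      by_contra hne
      rcases lt_or_gt_of_ne hne with hl | hl
      · exact hθ.2 ⟨hθ.1, η, hη.1, hl⟩
      · exact hη.2 ⟨hη.1, θ, hθ.1, hl⟩
    have h1 : #K₀ ≤ #K₂ + #(K₀ \ K₂ : Set _) := by
      refine (mk_le_mk_of_subset ?_).trans (mk_union_le _ _)
      intro θ hθ
      by_cases h : θ ∈ K₂
      · exact Or.inl h
      · exact Or.inr ⟨hθ, h⟩
    have h2 : #(K₀ \ K₂ : Set _) ≤ 1 := mk_le_one_iff_set_subsingleton.2 hsub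
    have h3 : #K₂ + #(K₀ \ K₂ : Set _) < μ := add_lt_of_lt hμ hcon (h2.trans_lt (one_lt_aleph0.trans_le hμ))
    exact absurd (hK₀c.trans h1) (not_le.2 h3)
  have hsucc : ∀ θ : K₂, ∃ ξ ∈ K₀, θ.1 < ξ ∧ ∀ η ∈ K₀, η < ξ → η ≤ θ.1 := by
    rintro ⟨θ, hθ, hex⟩
    obtain ⟨ξ, ⟨h1, h2⟩, h3⟩ := WellFounded.has_min (wellFounded_lt (α := W (2 ^ μ))) {ξ | ξ ∈ K₀ ∧ θ < ξ} hex
    refine ⟨ξ, h1, h2, fun η hη hlt => ?_⟩
    by_contra hcon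
    push Not at hcon
    exact h3 η ⟨hη, hcon⟩ hlt
  choose s hs1 hs2 hs3 using hsucc
  have hK₁c : μ ≤ #K₁ := by
    refine hK₂c.trans ?_
    refine mk_le_of_injective (f := fun θ : K₂ => (⟨s θ, hs1 θ, θ.1, θ.2.1, hs2 θ, hs3 θ⟩ : K₁)) ?_
    intro θ θ' h
    have h' : s θ = s θ' := congrArg Subtype.val h
    apply Subtype.ext
    apply le_antisymm
    · exact hs3 θ' θ.1 θ.2.1 (by rw [← h']; exact hs2 θ)
    · exact hs3 θ θ'.1 θ'.2.1 (by rw [h']; exact hs2 θ')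
  refine ⟨e '' K₁, by rw [mk_image_eq he.injective]; exact hK₁c, ?_⟩
  rintro _ ⟨ξ, ⟨hξ, θ, hθ, hθξ, hθ2⟩, rfl⟩
  refine ⟨e θ, he hθξ, ?_⟩
  rintro _ ⟨η, ⟨hη, -⟩, rfl⟩ hlt
  have hlt' : η < ξ := he.lt_iff_lt.1 hlt
  rcases (hθ2 η hη hlt').eq_or_lt with h1 | h1
  · rw [h1]
  · exact hK₀cp η hη θ hθ h1

theorem core {P : Type u} [PartialOrder P] {μ : Cardinal.{u}} (hμ : ℵ₀ ≤ μ)
    (hP : ∀ A : Set P, IsAntichain (· ≤ ·) A → #A < μ) {Λ : Type u} (J : Λ → Order.Ideal P)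
    (hJ : ∀ i j, i ≠ j → ¬ J i ≤ J j) : #Λ ≤ (2 : Cardinal.{u}) ^ ((2 : Cardinal.{u}) ^ μ) := by
  classical
  by_contra hcon
  push Not at hcon
  have hκ : ℵ₀ ≤ 2 ^ μ := hμ.trans (cantor μ).le
  have hex : ∀ i j, ∃ x ∈ J i, i ≠ j → x ∉ J j := by
    intro i j
    by_cases hij : i = j
    · obtain ⟨x, hx⟩ := (J i).nonempty
      exact ⟨x, hx, fun h => absurd hij h⟩
    · have h1 := hJ i j hij
      rw [← SetLike.coe_subset_coe, Set.not_subset] at h1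
      obtain ⟨x, hx, hx'⟩ := h1
      exact ⟨x, hx, fun _ => hx'⟩
  choose p hp1 hp2 using hex
  let t : ULift.{u} (Fin 3) → Λ → Λ → Λ → Prop := fun i b b' x =>
    if i.down = 0 then p x b ≤ p x b' else if i.down = 1 then p b b' ≤ p b x else p b x ≤ p b b'
  obtain ⟨ρ, a, ha, haρ, hT⟩ := endhom hκ (by
    refine le_trans ?_ hκ
    exact (Cardinal.lt_aleph0_of_finite _).le) hcon t
  have hT1 : ∀ ξ η ζ, η < ξ → ζ < ξ → (p (a ξ) (a η) ≤ p (a ξ) (a ζ) ↔ p ρ (a η) ≤ p ρ (a ζ)) := fun ξ η ζ h h' => by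
    have := hT ⟨0⟩ ξ η ζ h h'
    simpa [t] using this
  have hT2 : ∀ ξ η ζ, η < ξ → ζ < ξ → (p (a η) (a ζ) ≤ p (a η) (a ξ) ↔ p (a η) (a ζ) ≤ p (a η) ρ) := fun ξ η ζ h h' => by
    have := hT ⟨1⟩ ξ η ζ h h'
    simpa [t] using this
  have hT3 : ∀ ξ η ζ, η < ξ → ζ < ξ → (p (a η) (a ξ) ≤ p (a η) (a ζ) ↔ p (a η) ρ ≤ p (a η) (a ζ)) := fun ξ η ζ h h' => by
    have := hT ⟨2⟩ ξ η ζ h h'
    simpa [t] using this
  -- forward step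
  have hF : ∀ η : W (2 ^ μ), ∃ h : W (2 ^ μ), ∃ q ∈ J (a η), ∀ ξ, h ≤ ξ → η < ξ → q ∉ J (a ξ) := by
    intro η
    by_cases hA : ∃ ζ, p (a η) ρ ≤ p (a η) (a ζ)
    · obtain ⟨ζ, hζ⟩ := hA
      obtain ⟨h, hh⟩ := exists_bd hκ (S := {ζ}) (by rw [mk_singleton]; exact one_le_aleph0.trans hκ)
      refine ⟨h, p (a η) (a ζ), hp1 _ _, fun ξ hξ hηξ hmem => ?_⟩
      have hζξ : ζ < ξ := (hh ζ rfl).trans_le hξ
      have h1 : p (a η) (a ξ) ≤ p (a η) (a ζ) := (hT3 ξ η ζ hηξ hζξ).2 hζ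
      exact hp2 (a η) (a ξ) (fun h => hηξ.ne (ha h)) ((J (a ξ)).lower h1 hmem)
    · push Not at hA
      have hBad : #{ξ | η < ξ ∧ ¬ p (a η) (a ξ) ≤ p (a η) ρ} < μ := by
        apply anti_lt hP (fun ξ => p (a η) (a ξ))
        rintro ξ ⟨hξ1, hξ2⟩ ξ' ⟨hξ'1, hξ'2⟩ hlt
        rintro (h1 | h1)
        · exact hξ2 ((hT2 ξ' η ξ hξ'1 hlt).1 h1)
        · exact hA ξ ((hT3 ξ' η ξ hξ'1 hlt).1 h1)
      obtain ⟨h, hh⟩ := exists_bd hκ (hBad.le.trans (cantor μ).le)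
      refine ⟨h, p (a η) ρ, hp1 _ _, fun ξ hξ hηξ hmem => ?_⟩
      have h1 : p (a η) (a ξ) ≤ p (a η) ρ := by
        by_contra hc
        exact absurd (hh ξ ⟨hηξ, hc⟩) (not_lt.2 hξ)
      exact hp2 (a η) (a ξ) (fun h => hηξ.ne (ha h)) ((J (a ξ)).lower h1 hmem)
  choose h q hq1 hq2 using hF
  obtain ⟨e, he, hhe⟩ := exists_reindex hκ h
  obtain ⟨K, hK, hKθ⟩ := backward hμ hP (fun ξ => p ρ (a (e ξ)))
  have hr : ∀ ξ : K, ∃ r ∈ J (a (e ξ.1)), ∀ η ∈ K, η ≠ ξ.1 → r ∉ J (a (e η)) := by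
    rintro ⟨ξ, hξ⟩
    obtain ⟨θ, hθ, hθ2⟩ := hKθ ξ hξ
    obtain ⟨r, hr, hr1, hr2⟩ := (J (a (e ξ))).directed (q (e ξ)) (hq1 _) (p (a (e ξ)) (a (e θ))) (hp1 _ _)
    refine ⟨r, hr, fun η hη hne hmem => ?_⟩
    rcases lt_or_gt_of_ne hne with hl | hl
    · have h1 : p (a (e ξ)) (a (e η)) ≤ p (a (e ξ)) (a (e θ)) :=
        (hT1 (e ξ) (e η) (e θ) (he hl) (he hθ)).2 (hθ2 η hη hl)
      exact hp2 (a (e ξ)) (a (e η)) (fun h => (he hl).ne (ha h).symm) ((J (a (e η))).lower (h1.trans hr2) hmem)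
    · exact hq2 (e ξ) (e η) (hhe ξ η hl) (he hl) ((J (a (e η))).lower hr1 hmem)
  choose r hr1 hr2 using hr
  have hinj : Function.Injective r := by
    intro ξ η heq
    by_contra hne
    refine hr2 ξ η.1 η.2 (fun h => hne (Subtype.ext h.symm)) ?_
    rw [heq]
    exact hr1 η
  have hanti : IsAntichain (· ≤ ·) (range r) := by
    rintro _ ⟨ξ, rfl⟩ _ ⟨η, rfl⟩ hne hle
    have hne' : ξ ≠ η := fun h => hne (by rw [h])
    exact hr2 ξ η.1 η.2 (fun h => hne' (Subtype.ext h.symm)) ((J (a (e η.1))).lower hle (hr1 η))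
  have h1 := hP _ hanti
  rw [mk_range_eq r hinj] at h1
  exact absurd hK (not_le.2 h1)

end Pool.Agent.Idl
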